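import Pool.Agent.Helper80.HD.GoalsC

/-!
# HD, packet DIC: dichotomy for perturbed linear recurrences

Induction on the dimension: let `φ` be a linear form with `φ ∘ A = μ φ`. Then `φ (w n)` satisfies a
scalar perturbed recurrence, for which the dichotomy is elementary. If `φ (w n)` is large we are
done; if it is `O(ρ₁ ^ n)` then the component of `w n` in `ker φ` satisfies the hypothesis again.
-/

set_option autoImplicit false

noncomputable section

namespace Pool.Agent.Helper87.HD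

open Pool.Agent.Helper80.HD

/-- the scalar dichotomy -/
lemma scal (x : ℕ → ℂ) (μ : ℂ) (ρ₁ ρ₂ C₀ : ℝ) (h1 : 0 < ρ₁) (h12 : ρ₁ < ρ₂)
    (hμ : ‖μ‖ < ρ₁ ∨ ρ₂ < ‖μ‖) (hx : ∀ n, ‖x (n + 1) - μ * x n‖ ≤ C₀ * ρ₁ ^ n) :
    (∃ C₁ : ℝ, ∀ n, ‖x n‖ ≤ C₁ * ρ₁ ^ n) ∨
      ∃ c : ℝ, 0 < c ∧ ∃ n₀, ∀ n, n₀ ≤ n → c * ρ₂ ^ n ≤ ‖x n‖ := by
  rcases hμ with hμ | hμ
  · left
    set K := max ‖x 0‖ (C₀ / (ρ₁ - ‖μ‖)) with hK
    have hd : 0 < ρ₁ - ‖μ‖ := by linarith
    have hK2 : C₀ ≤ K * (ρ₁ - ‖μ‖) := by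
      have := le_max_right ‖x 0‖ (C₀ / (ρ₁ - ‖μ‖))
      rwa [div_le_iff₀ hd] at this
    refine ⟨K, fun n => ?_⟩
    induction n with
    | zero =>
      rw [pow_zero, mul_one]
      exact le_max_left ‖x 0‖ (C₀ / (ρ₁ - ‖μ‖))
    | succ n ih =>
      have hp : 0 < ρ₁ ^ n := pow_pos h1 n
      calc ‖x (n + 1)‖ = ‖(x (n + 1) - μ * x n) + μ * x n‖ := by rw [sub_add_cancel]
        _ ≤ ‖x (n + 1) - μ * x n‖ + ‖μ * x n‖ := norm_add_le _ _
        _ ≤ C₀ * ρ₁ ^ n + ‖μ‖ * (K * ρ₁ ^ n) := by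
          rw [norm_mul]
          exact add_le_add (hx n) (mul_le_mul_of_nonneg_left ih (norm_nonneg _))
        _ ≤ K * ρ₁ ^ (n + 1) := by
          rw [pow_succ]
          nlinarith [mul_le_mul_of_nonneg_right hK2 hp.le]
  · have hd : 0 < ‖μ‖ - ρ₁ := by linarith
    set K := C₀ / (‖μ‖ - ρ₁) with hK
    have hK2 : K * (‖μ‖ - ρ₁) = C₀ := div_mul_cancel₀ _ hd.ne'
    by_cases hall : ∀ n, ‖x n‖ ≤ K * ρ₁ ^ n
    · exact Or.inl ⟨K, hall⟩
    · right
      push Not at hall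
      obtain ⟨n₀, hn₀⟩ := hall
      have hρ₂ : 0 < ρ₂ := h1.trans h12
      have hy : ∀ n, ρ₂ ^ n * (‖x n₀‖ - K * ρ₁ ^ n₀) ≤ ‖x (n₀ + n)‖ - K * ρ₁ ^ (n₀ + n) := by
        intro n
        induction n with
        | zero => simp
        | succ n ih =>
          have hp : 0 < ρ₁ ^ (n₀ + n) := pow_pos h1 _
          have h3 : ‖μ‖ * ‖x (n₀ + n)‖ - C₀ * ρ₁ ^ (n₀ + n) ≤ ‖x (n₀ + (n + 1))‖ := by
            have h4 := hx (n₀ + n)
            have h5 : ‖μ * x (n₀ + n)‖ ≤ ‖x (n₀ + n + 1)‖ +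
                ‖x (n₀ + n + 1) - μ * x (n₀ + n)‖ := by
              calc ‖μ * x (n₀ + n)‖
                  = ‖x (n₀ + n + 1) - (x (n₀ + n + 1) - μ * x (n₀ + n))‖ := by
                    rw [sub_sub_cancel]
                _ ≤ _ := norm_sub_le _ _
            rw [norm_mul] at h5
            rw [← add_assoc]
            linarith
          have h6 : 0 ≤ ‖x (n₀ + n)‖ - K * ρ₁ ^ (n₀ + n) :=
            le_trans (mul_nonneg (pow_nonneg hρ₂.le _) (by linarith)) ih
          calc ρ₂ ^ (n + 1) * (‖x n₀‖ - K * ρ₁ ^ n₀)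
              = ρ₂ * (ρ₂ ^ n * (‖x n₀‖ - K * ρ₁ ^ n₀)) := by rw [pow_succ]; ring
            _ ≤ ρ₂ * (‖x (n₀ + n)‖ - K * ρ₁ ^ (n₀ + n)) :=
              mul_le_mul_of_nonneg_left ih hρ₂.le
            _ ≤ ‖μ‖ * (‖x (n₀ + n)‖ - K * ρ₁ ^ (n₀ + n)) :=
              mul_le_mul_of_nonneg_right hμ.le h6
            _ = (‖μ‖ * ‖x (n₀ + n)‖ - C₀ * ρ₁ ^ (n₀ + n)) - K * ρ₁ ^ (n₀ + (n + 1)) := by
              rw [← hK2, ← add_assoc, pow_succ]; ring
            _ ≤ _ := by linarith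
      have hc : 0 < ‖x n₀‖ - K * ρ₁ ^ n₀ := by linarith
      have hK0 : 0 ≤ K := by
        have h0 : 0 ≤ C₀ := by
          have := (norm_nonneg _).trans (hx 0)
          simpa using this
        exact div_nonneg h0 hd.le
      refine ⟨(‖x n₀‖ - K * ρ₁ ^ n₀) / ρ₂ ^ n₀, div_pos hc (pow_pos hρ₂ _), n₀, fun n hn => ?_⟩
      obtain ⟨m, rfl⟩ := Nat.exists_eq_add_of_le hn
      have h7 := hy m
      have h8 : 0 ≤ K * ρ₁ ^ (n₀ + m) := mul_nonneg hK0 (pow_nonneg h1.le _)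
      rw [pow_add, div_mul_eq_mul_div, mul_comm (ρ₂ ^ n₀), ← mul_assoc,
        mul_div_cancel_right₀ _ (pow_pos hρ₂ _).ne']
      linarith

/-- the dichotomy in a finite-dimensional normed space -/
theorem dich : ∀ (d : ℕ) (V : Type) [NormedAddCommGroup V] [NormedSpace ℂ V]
    [FiniteDimensional ℂ V] (A : V →ₗ[ℂ] V) (w : ℕ → V) (ρ₁ ρ₂ C₀ : ℝ),
    Module.finrank ℂ V = d → 0 < ρ₁ → ρ₁ < ρ₂ →
    (∀ μ : ℂ, Module.End.HasEigenvalue A μ → ‖μ‖ < ρ₁ ∨ ρ₂ < ‖μ‖) →
    (∀ n, ‖w (n + 1) - A (w n)‖ ≤ C₀ * ρ₁ ^ n) →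
      (∃ C₁ : ℝ, ∀ n, ‖w n‖ ≤ C₁ * ρ₁ ^ n) ∨
        ∃ c : ℝ, 0 < c ∧ ∃ n₀, ∀ n, n₀ ≤ n → c * ρ₂ ^ n ≤ ‖w n‖ := by
  intro d
  induction d using Nat.strong_induction_on with
  | _ d ih =>
    intro V _ _ _ A w ρ₁ ρ₂ C₀ hd h1 h12 hA hw
    rcases subsingleton_or_nontrivial V with hV | hV
    · left
      refine ⟨0, fun n => ?_⟩
      rw [Subsingleton.elim (w n) 0, norm_zero, zero_mul]
    · -- the linear form
      obtain ⟨μ, hμ⟩ := Module.End.exists_eigenvalue A
      obtain ⟨v, hv⟩ := hμ.exists_hasEigenvector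
      have hninj : ¬ Function.Injective (A - μ • (LinearMap.id : V →ₗ[ℂ] V)) := by
        intro hinj
        apply hv.2
        apply hinj
        rw [map_zero, LinearMap.sub_apply, LinearMap.smul_apply, LinearMap.id_apply,
          hv.apply_eq_smul, sub_self]
      have hrange : LinearMap.range (A - μ • (LinearMap.id : V →ₗ[ℂ] V)) < ⊤ := by
        rw [lt_top_iff_ne_top]
        intro h
        exact hninj (LinearMap.injective_iff_surjective.2 (LinearMap.range_eq_top.1 h))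
      obtain ⟨φ, hφ0, hφ⟩ := Submodule.exists_le_ker_of_lt_top _ hrange
      have hφA : ∀ u, φ (A u) = μ * φ u := by
        intro u
        have h2 : φ ((A - μ • (LinearMap.id : V →ₗ[ℂ] V)) u) = 0 :=
          LinearMap.mem_ker.1 (hφ (LinearMap.mem_range_self _ u))
        rw [LinearMap.sub_apply, LinearMap.smul_apply, LinearMap.id_apply, map_sub, map_smul,
          smul_eq_mul, sub_eq_zero] at h2
        exact h2
      obtain ⟨v₁, hv₁⟩ : ∃ v₁, φ v₁ ≠ 0 := by
        by_contra h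
        push Not at h
        exact hφ0 (LinearMap.ext h)
      set v₀ := (φ v₁)⁻¹ • v₁ with hv₀
      have hφv₀ : φ v₀ = 1 := by
        rw [hv₀, map_smul, smul_eq_mul, inv_mul_cancel₀ hv₁]
      -- the scalar sequence
      set Φ := LinearMap.toContinuousLinearMap φ with hΦ
      have hΦφ : ∀ u, ‖φ u‖ ≤ ‖Φ‖ * ‖u‖ := fun u => Φ.le_opNorm u
      have hsc : ∀ n, ‖φ (w (n + 1)) - μ * φ (w n)‖ ≤ (‖Φ‖ * C₀) * ρ₁ ^ n := by
        intro n
        rw [← hφA, ← map_sub]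
        calc ‖φ (w (n + 1) - A (w n))‖ ≤ ‖Φ‖ * ‖w (n + 1) - A (w n)‖ := hΦφ _
          _ ≤ ‖Φ‖ * (C₀ * ρ₁ ^ n) := mul_le_mul_of_nonneg_left (hw n) (norm_nonneg _)
          _ = _ := by ring
      rcases scal (fun n => φ (w n)) μ ρ₁ ρ₂ _ h1 h12 (hA μ hμ) hsc with ⟨K, hK⟩ | ⟨c, hc, n₀, hn⟩
      · -- the component in the kernel
        set W := LinearMap.ker φ with hW
        have hAW : ∀ u ∈ W, A u ∈ W := by
          intro u hu
          rw [hW, LinearMap.mem_ker] at hu ⊢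
          rw [hφA, hu, mul_zero]
        have hmem : ∀ n, w n - φ (w n) • v₀ ∈ W := by
          intro n
          rw [hW, LinearMap.mem_ker, map_sub, map_smul, hφv₀, smul_eq_mul, mul_one, sub_self]
        have hWlt : Module.finrank ℂ W < d := by
          rw [← hd]
          apply Submodule.finrank_lt
          intro h
          have : v₁ ∈ W := by rw [h]; trivial
          exact hv₁ (LinearMap.mem_ker.1 this)
        have hK0 : 0 ≤ K := by
          have := (norm_nonneg _).trans (hK 0)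
          simpa using this
        have hrec := ih (Module.finrank ℂ W) hWlt W (A.restrict hAW)
          (fun n => ⟨w n - φ (w n) • v₀, hmem n⟩) ρ₁ ρ₂ (C₀ + K * ρ₁ * ‖v₀‖ + K * ‖A v₀‖) rfl h1
          h12 (by
            intro μ' hμ'
            obtain ⟨u, hu⟩ := hμ'.exists_hasEigenvector
            apply hA
            apply Module.End.hasEigenvalue_of_hasEigenvector (x := (u : V))
            constructor
            · rw [Module.End.mem_eigenspace_iff]
              have h3 := congrArg Subtype.val hu.apply_eq_smul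
              simpa using h3
            · intro h
              exact hu.2 (Subtype.ext h)) (by
            intro n
            have h3 : ‖(w (n + 1) - φ (w (n + 1)) • v₀) - A (w n - φ (w n) • v₀)‖ ≤
                (C₀ + K * ρ₁ * ‖v₀‖ + K * ‖A v₀‖) * ρ₁ ^ n := by
              have h4 : (w (n + 1) - φ (w (n + 1)) • v₀) - A (w n - φ (w n) • v₀) =
                  (w (n + 1) - A (w n)) - φ (w (n + 1)) • v₀ + φ (w n) • A v₀ := by
                rw [map_sub, map_smul]; abel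
              rw [h4]
              calc ‖(w (n + 1) - A (w n)) - φ (w (n + 1)) • v₀ + φ (w n) • A v₀‖
                  ≤ ‖(w (n + 1) - A (w n)) - φ (w (n + 1)) • v₀‖ + ‖φ (w n) • A v₀‖ :=
                    norm_add_le _ _
                _ ≤ (‖w (n + 1) - A (w n)‖ + ‖φ (w (n + 1)) • v₀‖) + ‖φ (w n) • A v₀‖ := by
                    gcongr; exact norm_sub_le _ _
                _ ≤ (C₀ * ρ₁ ^ n + (K * ρ₁ ^ (n + 1)) * ‖v₀‖) + (K * ρ₁ ^ n) * ‖A v₀‖ := by
                    have h5 : ‖φ (w (n + 1)) • v₀‖ ≤ (K * ρ₁ ^ (n + 1)) * ‖v₀‖ := by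
                      rw [norm_smul]
                      exact mul_le_mul_of_nonneg_right (hK (n + 1)) (norm_nonneg _)
                    have h6 : ‖φ (w n) • A v₀‖ ≤ (K * ρ₁ ^ n) * ‖A v₀‖ := by
                      rw [norm_smul]
                      exact mul_le_mul_of_nonneg_right (hK n) (norm_nonneg _)
                    exact add_le_add (add_le_add (hw n) h5) h6
                _ = _ := by rw [pow_succ]; ring
            exact h3)
        rcases hrec with ⟨K', hK'⟩ | ⟨c, hc, n₀, hn⟩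
        · left
          refine ⟨K' + K * ‖v₀‖, fun n => ?_⟩
          have h3 : ‖w n - φ (w n) • v₀‖ ≤ K' * ρ₁ ^ n := hK' n
          calc ‖w n‖ = ‖(w n - φ (w n) • v₀) + φ (w n) • v₀‖ := by rw [sub_add_cancel]
            _ ≤ ‖w n - φ (w n) • v₀‖ + ‖φ (w n) • v₀‖ := norm_add_le _ _
            _ ≤ K' * ρ₁ ^ n + (K * ρ₁ ^ n) * ‖v₀‖ := by
              rw [norm_smul]
              exact add_le_add h3 (mul_le_mul_of_nonneg_right (hK n) (norm_nonneg _))
            _ = _ := by ring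
        · right
          have hρ₂ : 0 < ρ₂ := h1.trans h12
          -- `K ρ₁ ^ n ‖v₀‖ ≤ (c / 2) ρ₂ ^ n` for large `n`
          have hlim : Filter.Tendsto (fun n : ℕ => K * ‖v₀‖ * (ρ₁ / ρ₂) ^ n) Filter.atTop
              (nhds (K * ‖v₀‖ * 0)) :=
            (tendsto_pow_atTop_nhds_zero_of_lt_one (div_nonneg h1.le hρ₂.le)
              ((div_lt_one hρ₂).2 h12)).const_mul _
          rw [mul_zero] at hlim
          have hev := hlim.eventually (gt_mem_nhds (by positivity : (0 : ℝ) < c / 2))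
          obtain ⟨n₁, hn₁⟩ := Filter.eventually_atTop.1 hev
          refine ⟨c / 2, by positivity, max n₀ n₁, fun n hnn => ?_⟩
          have h3 : c * ρ₂ ^ n ≤ ‖w n - φ (w n) • v₀‖ := hn n (le_trans (le_max_left _ _) hnn)
          have h4 := hn₁ n (le_trans (le_max_right _ _) hnn)
          have hp : 0 < ρ₂ ^ n := pow_pos hρ₂ n
          have h5 : K * ‖v₀‖ * ρ₁ ^ n ≤ c / 2 * ρ₂ ^ n := by
            have h6 : K * ‖v₀‖ * (ρ₁ / ρ₂) ^ n * ρ₂ ^ n ≤ c / 2 * ρ₂ ^ n :=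
              mul_le_mul_of_nonneg_right h4.le hp.le
            rwa [div_pow, mul_assoc, div_mul_cancel₀ _ hp.ne'] at h6
          have h7 : ‖w n - φ (w n) • v₀‖ ≤ ‖w n‖ + ‖φ (w n) • v₀‖ := norm_sub_le _ _
          have h8 : ‖φ (w n) • v₀‖ ≤ K * ‖v₀‖ * ρ₁ ^ n := by
            rw [norm_smul]
            calc ‖φ (w n)‖ * ‖v₀‖ ≤ (K * ρ₁ ^ n) * ‖v₀‖ :=
                  mul_le_mul_of_nonneg_right (hK n) (norm_nonneg _)
              _ = _ := by ring
          linarith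
      · -- the scalar sequence is large
        right
        have hΦ0 : 0 < ‖Φ‖ := by
          have h3 := hΦφ v₀
          rw [hφv₀, norm_one] at h3
          by_contra h
          have : ‖Φ‖ = 0 := le_antisymm (not_lt.1 h) (norm_nonneg _)
          rw [this, zero_mul] at h3
          linarith
        refine ⟨c / ‖Φ‖, div_pos hc hΦ0, n₀, fun n hnn => ?_⟩
        have h3 := (hn n hnn).trans (hΦφ (w n))
        rw [div_mul_eq_mul_div, div_le_iff₀ hΦ0, mul_comm ‖w n‖]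
        exact h3

theorem dic : S_DIC := by
  intro ι _ _ A w ρ₁ ρ₂ C₀ h1 h12 hA hw
  exact dich _ (ι → ℂ) (Matrix.toLin' A) w ρ₁ ρ₂ C₀ rfl h1 h12 hA
    (fun n => by rw [Matrix.toLin'_apply]; exact hw n)

end Pool.Agent.Helper87.HD
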