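import Pool.Agent.Helper80.HD.GoalsC

/-!
# HD, packet SHD: the vector recurrence of the degrees
-/

set_option autoImplicit false

noncomputable section

namespace Pool.Agent.Helper87.HD

open Pool.Agent.Helper80.HD

/-- the companion matrix -/
def comp (m : ℕ) (a : Fin (m + 1) → ℤ) (s t : Fin m) : ℚ :=
  if (s : ℕ) + 1 < m then (if (t : ℕ) = s + 1 then 1 else 0)
  else -(a t.castSucc : ℚ) / a (Fin.last m)

/-- the recurrence in one slot -/
lemma comp_rec {m : ℕ} {a : Fin (m + 1) → ℤ} (ham : a (Fin.last m) ≠ 0) (f : ℕ → ℝ)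
    (h : ∀ j : ℕ, ∑ i : Fin (m + 1), (a i : ℝ) * f (j + i) = 0) (n : ℕ) (s : Fin m) :
    f (n + 1 + s) = ∑ t : Fin m, ((comp m a s t : ℚ) : ℝ) * f (n + t) := by
  by_cases hs : (s : ℕ) + 1 < m
  · rw [Finset.sum_eq_single (⟨(s : ℕ) + 1, hs⟩ : Fin m)]
    · rw [comp, if_pos hs, if_pos rfl, Rat.cast_one, one_mul]
      congr 1
      show n + 1 + (s : ℕ) = n + ((s : ℕ) + 1)
      omega
    · intro t _ ht
      rw [comp, if_pos hs, if_neg (fun h => ht (Fin.ext h)), Rat.cast_zero, zero_mul]
    · intro h; exact absurd (Finset.mem_univ _) h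
  · have hsm : (s : ℕ) + 1 = m := by have := s.2; omega
    have h1 := h n
    rw [Fin.sum_univ_castSucc] at h1
    have h2 : ∀ t : Fin m, ((comp m a s t : ℚ) : ℝ) = -(a t.castSucc : ℝ) / a (Fin.last m) := by
      intro t
      rw [comp, if_neg hs]
      push_cast
      rfl
    have h3 : (a (Fin.last m) : ℝ) ≠ 0 := by exact_mod_cast ham
    have h4 : ((Fin.last m : Fin (m + 1)) : ℕ) = m := Fin.val_last m
    simp only [h2]
    have h5 : ∀ t : Fin m, -(a t.castSucc : ℝ) / a (Fin.last m) * f (n + t) =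
        -(a (Fin.last m) : ℝ)⁻¹ * ((a t.castSucc : ℝ) * f (n + (t.castSucc : Fin (m + 1)))) := by
      intro t
      rw [Fin.val_castSucc]
      field_simp
    rw [Finset.sum_congr rfl fun t _ => h5 t, ← Finset.mul_sum, eq_neg_of_add_eq_zero_left h1,
      h4, show n + 1 + (s : ℕ) = n + m by omega]
    field_simp

/-- all the slots -/
lemma slots (m : ℕ) (T : Fin m → Fin m → ℝ) : ∀ (k : ℕ) (D : (Fin k → ℕ) → ℝ),
    (∀ (J : Fin k → ℕ) (l : Fin k) (n : ℕ) (s : Fin m), D (Function.update J l (n + 1 + s)) =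
      ∑ t, T s t * D (Function.update J l (n + t))) →
    ∀ (n : ℕ) (J : Fin k → Fin m), D (fun i => n + 1 + (J i : ℕ)) =
      ∑ J' : Fin k → Fin m, (∏ i, T (J i) (J' i)) * D (fun i => n + (J' i : ℕ)) := by
  intro k
  induction k with
  | zero =>
    intro D _ n J
    rw [Fintype.sum_unique, Finset.univ_eq_empty, Finset.prod_empty, one_mul]
    congr 1
    ext i
    exact i.elim0
  | succ k ih =>
    intro D hD n J
    have h1 : ∀ c : ℕ, D (Fin.cons c (fun i : Fin k => n + 1 + (J i.succ : ℕ)) : Fin (k + 1) → ℕ) =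
        ∑ J' : Fin k → Fin m, (∏ i, T (J i.succ) (J' i)) *
          D (Fin.cons c (fun i : Fin k => n + (J' i : ℕ)) : Fin (k + 1) → ℕ) := by
      intro c
      refine ih (fun I => D (Fin.cons c I : Fin (k + 1) → ℕ)) ?_ n (fun i => J i.succ)
      intro I l n s
      simp only [Fin.cons_update]
      exact hD _ _ _ _
    have h2 : ∀ (I : Fin k → ℕ) (s : Fin m), D (Fin.cons (n + 1 + (s : ℕ)) I : Fin (k + 1) → ℕ) =
        ∑ t : Fin m, T s t * D (Fin.cons (n + (t : ℕ)) I : Fin (k + 1) → ℕ) := by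
      intro I s
      have := hD (Fin.cons 0 I : Fin (k + 1) → ℕ) 0 n s
      simpa only [Fin.update_cons_zero] using this
    have h3 : (fun i : Fin (k + 1) => n + 1 + (J i : ℕ)) =
        (Fin.cons (n + 1 + (J 0 : ℕ)) (fun i : Fin k => n + 1 + (J i.succ : ℕ)) :
          Fin (k + 1) → ℕ) := by
      ext i
      refine Fin.cases ?_ (fun i => ?_) i
      · rfl
      · rfl
    rw [h3, h1]
    have h4 : ∑ J' : Fin (k + 1) → Fin m, (∏ i, T (J i) (J' i)) * D (fun i => n + (J' i : ℕ)) =
        ∑ p : Fin m × (Fin k → Fin m), (T (J 0) p.1 * ∏ i, T (J i.succ) (p.2 i)) *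
          D (Fin.cons (n + (p.1 : ℕ)) (fun i : Fin k => n + (p.2 i : ℕ)) : Fin (k + 1) → ℕ) := by
      refine (Fintype.sum_equiv (Fin.consEquiv fun _ : Fin (k + 1) => Fin m) _ _ ?_).symm
      intro p
      rw [Fin.prod_univ_succ]
      congr 1
      congr 1
      ext i
      refine Fin.cases ?_ (fun i => ?_) i
      · rfl
      · rfl
    rw [h4, Fintype.sum_prod_type_right]
    apply Finset.sum_congr rfl
    intro J' _
    rw [h2, Finset.mul_sum]
    apply Finset.sum_congr rfl
    intro t _
    ring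

/-- the growth in all the slots -/
lemma growth {k : ℕ} (D : (Fin k → ℕ) → ℝ) (B : ℝ) (hB : 1 ≤ B)
    (hinc : ∀ (J : Fin k → ℕ) (l : Fin k), D (Function.update J l (J l + 1)) ≤ B * D J) (n : ℕ) :
    ∀ (r : ℕ) (J : Fin k → ℕ), ∑ i, J i = r → D (fun i => n + J i) ≤ B ^ r * D (fun _ => n) := by
  intro r
  induction r with
  | zero =>
    intro J hJ
    have h0 : ∀ i, J i = 0 := fun i =>
      (Finset.sum_eq_zero_iff.1 hJ) i (Finset.mem_univ i)
    have h1 : (fun i => n + J i) = fun _ => n := by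
      ext i; rw [h0, Nat.add_zero]
    rw [h1, pow_zero, one_mul]
  | succ r ih =>
    intro J hJ
    obtain ⟨l, hl⟩ : ∃ l, J l ≠ 0 := by
      by_contra h
      push Not at h
      rw [Finset.sum_eq_zero fun i _ => h i] at hJ
      omega
    set J' := Function.update J l (J l - 1) with hJ'
    have h1 : ∑ i, J' i = r := by
      have h2 : ∑ i, J i = J l + ∑ i ∈ Finset.univ.erase l, J i :=
        (Finset.add_sum_erase _ _ (Finset.mem_univ l)).symm
      have h3 : ∑ i, J' i = J' l + ∑ i ∈ Finset.univ.erase l, J' i :=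
        (Finset.add_sum_erase _ _ (Finset.mem_univ l)).symm
      have h4 : ∑ i ∈ Finset.univ.erase l, J' i = ∑ i ∈ Finset.univ.erase l, J i := by
        apply Finset.sum_congr rfl
        intro i hi
        rw [hJ', Function.update_of_ne (Finset.ne_of_mem_erase hi)]
      have h5 : J' l = J l - 1 := by rw [hJ', Function.update_self]
      omega
    have h2 : (fun i => n + J i) =
        Function.update (fun i => n + J' i) l ((fun i => n + J' i) l + 1) := by
      ext i
      by_cases hi : i = l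
      · subst hi
        rw [Function.update_self]
        show n + J i = n + J' i + 1
        rw [hJ', Function.update_self]
        omega
      · rw [Function.update_of_ne hi]
        show n + J i = n + J' i
        rw [hJ', Function.update_of_ne hi]
    rw [h2]
    calc _ ≤ B * D (fun i => n + J' i) := hinc _ _
      _ ≤ B * (B ^ r * D (fun _ => n)) := mul_le_mul_of_nonneg_left (ih J' h1) (by linarith)
      _ = _ := by rw [pow_succ]; ring

theorem shd : S_SHD := by
  intro k m a E D B C₀ hm hR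
  refine ⟨⟨Matrix.of fun J J' => ∏ i, comp m a (J i) (J' i), ?_⟩, B ^ (k * m), one_le_pow₀ hR.B1, ?_⟩
  · intro n
    ext J
    have h1 := slots m (fun s t => ((comp m a s t : ℚ) : ℝ)) k D (fun J l n s =>
      comp_rec hR.am (fun j => D (Function.update J l j)) (fun j => hR.relD j J l) n s) n J
    rw [h1, Matrix.mulVec, dotProduct]
    apply Finset.sum_congr rfl
    intro J' _
    rw [Matrix.map_apply, Matrix.of_apply, map_prod]
    rfl
  · intro n J hJ
    have h1 := growth D B hR.B1 hR.incD n _ J rfl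
    have h2 : ∑ i, J i ≤ k * m := by
      calc ∑ i, J i ≤ ∑ _i : Fin k, m := Finset.sum_le_sum fun i _ => hJ i
        _ = k * m := by simp
    have h3 : (0 : ℝ) ≤ D (fun _ => n) := zero_le_one.trans (hR.D1 _)
    exact h1.trans (mul_le_mul_of_nonneg_right (pow_le_pow_right₀ hR.B1 h2) h3)

end Pool.Agent.Helper87.HD
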